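import Pool.Agent.Lib.H85TF.P2

/-!
# H1FD, file Defs: 2-cuts, reductions at 2-cuts (FORM D of MP_33911d_co)

All graphs are edge sets `G` looked at on a vertex set `Y`.
-/

set_option autoImplicit false

namespace H1FD

open Finset H98P H98M

variable {V : Type*} [DecidableEq V]

/-- `G` is 2-connected on `Y`. -/
def TCY (Y : Finset V) (G : Finset (Sym2 V)) : Prop :=
  3 ≤ Y.card ∧ ¬ Disc Y G ∧ ∀ v ∈ Y, ¬ Disc (Y.erase v) G

/-- On `Y` the 2-cut `{x, y}` separates `A` from `B`. -/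
structure Sep (Y : Finset V) (G : Finset (Sym2 V)) (x y : V) (A B : Finset V) : Prop where
  ne : x ≠ y
  xA : x ∉ A
  xB : x ∉ B
  yA : y ∉ A
  yB : y ∉ B
  nA : A.Nonempty
  nB : B.Nonempty
  dis : Disjoint A B
  un : insert x (insert y (A ∪ B)) = Y
  no : ∀ a ∈ A, ∀ b ∈ B, s(a, b) ∉ G

/-- No 2-cut separates `x` from `y`. -/
def Unc (Y : Finset V) (G : Finset (Sym2 V)) (x y : V) : Prop :=
  ∀ (u v : V) (A B : Finset V), Sep Y G u v A B → x ∈ A → y ∉ B

/-- Some 2-cut off `W` separates `W`. -/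
def X2 (Y : Finset V) (G : Finset (Sym2 V)) (W : Finset V) : Prop :=
  ∃ (x y : V) (A B : Finset V), Sep Y G x y A B ∧ W ⊆ A ∪ B ∧ (W ∩ A).Nonempty ∧ (W ∩ B).Nonempty

/-- `W` is covered by pairwise disjoint cycles of `G` on `Y`. -/
def CovY (Y : Finset V) (G : Finset (Sym2 V)) (W : Finset V) : Prop :=
  H85TF.Cov (G ∩ LW Y) (W ∩ Y)

/-- After some reductions at 2-cuts (forget the side `B`, add the edge `xy`) `W` is not covered any more. -/
inductive UU : Finset V → Finset (Sym2 V) → Finset V → Prop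
  | base {Y : Finset V} {G : Finset (Sym2 V)} {W : Finset V} : ¬ CovY Y G W → UU Y G W
  | step {Y : Finset V} {G : Finset (Sym2 V)} {W : Finset V} {x y : V} {A B : Finset V} :
      Sep Y G x y A B → UU (insert x (insert y A)) (insert s(x, y) G) W → UU Y G W

/-- `G` has a Hamiltonian cycle on `Y`. -/
def HamY (Y : Finset V) (G : Finset (Sym2 V)) : Prop :=
  ∃ F ⊆ G ∩ LW Y, (∀ v ∈ Y, H85TF.dg F v = 2) ∧ ¬ Disc Y F

theorem Sep.symm {Y : Finset V} {G : Finset (Sym2 V)} {x y : V} {A B : Finset V} (h : Sep Y G x y A B) :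
    Sep Y G x y B A :=
  ⟨h.ne, h.xB, h.xA, h.yB, h.yA, h.nB, h.nA, h.dis.symm, by rw [union_comm]; exact h.un,
    fun a ha b hb hab => h.no b hb a ha (by rw [Sym2.eq_swap]; exact hab)⟩

theorem Sep.swap {Y : Finset V} {G : Finset (Sym2 V)} {x y : V} {A B : Finset V} (h : Sep Y G x y A B) :
    Sep Y G y x A B :=
  ⟨h.ne.symm, h.yA, h.yB, h.xA, h.xB, h.nA, h.nB, h.dis, by rw [insert_comm]; exact h.un, h.no⟩

theorem Sep.anti {Y : Finset V} {G G' : Finset (Sym2 V)} (hG : ∀ e ∈ G, e ∈ LW Y → e ∈ G') {x y : V}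
    {A B : Finset V} (h : Sep Y G' x y A B) : Sep Y G x y A B := by
  refine ⟨h.ne, h.xA, h.xB, h.yA, h.yB, h.nA, h.nB, h.dis, h.un, fun a ha b hb hab => ?_⟩
  refine h.no a ha b hb (hG _ hab ?_)
  unfold LW
  refine mem_filter.2 ⟨?_, ?_⟩
  · rw [mk_mem_sym2_iff, ← h.un]
    exact ⟨by simp [ha], by simp [hb]⟩
  · intro h'
    have : a = b := by simpa using h'
    exact disjoint_left.1 h.dis ha (this ▸ hb)

theorem Unc.symm {Y : Finset V} {G : Finset (Sym2 V)} {x y : V} (h : Unc Y G x y) : Unc Y G y x :=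
  fun u v A B hs hy hx => h u v B A hs.symm hx hy

end H1FD
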